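import Pool.Agent.Helper42.RZ.St.S11

/-! # RZ-S12: upper bound by pasting, mixtures -/

set_option autoImplicit false

open MeasureTheory Set Metric Filter Topology
open scoped ENNReal

namespace Pool.Agent.Helper81.RZ

open Pool.Agent.Helper42.RZ

/-- Poisson weights -/
noncomputable def pw (l : ℝ) (M : ℕ) : ℝ := Real.exp (-(4 * l)) * ((4 * l) ^ M / M.factorial)

theorem pw_nonneg {l : ℝ} (hl : 0 ≤ l) (M : ℕ) : 0 ≤ pw l M := by
  unfold pw; positivity

theorem pw_hasSum (l t : ℝ) :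
    HasSum (fun M : ℕ => pw l M * (1 - t / 4) ^ M) (Real.exp (-l * t)) := by
  have h := (NormedSpace.expSeries_div_hasSum_exp (4 * l * (1 - t / 4) : ℝ)).mul_left
    (Real.exp (-(4 * l)))
  rw [← Real.exp_eq_exp_ℝ, ← Real.exp_add] at h
  have e : -(4 * l) + 4 * l * (1 - t / 4) = -l * t := by ring
  rw [e] at h
  refine h.congr_fun ?_
  intro M
  simp only [pw]
  rw [mul_pow (4 * l) (1 - t / 4)]
  ring

theorem pw_hasSum_one (l : ℝ) : HasSum (fun M : ℕ => pw l M) 1 := by
  have h := pw_hasSum l 0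
  simpa using h

theorem K_mul_integrable {s : ℝ} (h2 : s < 2) {ρ : ℝ} (hρ0 : 0 ≤ ρ) :
    IntervalIntegrable (fun r => K s r * (r / 2)) volume 0 ρ := by
  have h : IntervalIntegrable (fun r : ℝ => r ^ (1 - s) * (1 / 2)) volume 0 ρ :=
    (intervalIntegral.intervalIntegrable_rpow' (by linarith)).mul_const _
  refine h.congr ?_
  rw [uIoc_of_le hρ0]
  intro r hr
  simp only [K]
  rw [show (1 - s : ℝ) = -s + 1 by ring, Real.rpow_add_one hr.1.ne']
  ring

theorem mix1 {s : ℝ} (h2 : s < 2) {N₀ : ℕ} (x : Fin N₀ → E3) {b ρ A B β l : ℝ}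
    (hρ0 : 0 ≤ ρ) (hρ : ρ ≤ 1) (hl : 0 ≤ l)
    (h : ∀ M : ℕ, β ≤ A * PS x (fun r => K s (b * r) * (1 - b * r / 4) ^ M) -
      B * ∫ r in (0 : ℝ)..ρ, K s r * (1 - r / 4) ^ M * (r / 2)) :
    β ≤ A * PS x (fun r => K s (b * r) * Real.exp (-l * (b * r))) -
      B * ∫ r in (0 : ℝ)..ρ, K s r * Real.exp (-l * r) * (r / 2) := by
  have hβ : HasSum (fun M : ℕ => pw l M * β) β := by
    simpa using (pw_hasSum_one l).mul_right β
  have hPS : HasSum (fun M : ℕ => pw l M * PS x (fun r => K s (b * r) * (1 - b * r / 4) ^ M))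
      (PS x (fun r => K s (b * r) * Real.exp (-l * (b * r)))) := by
    simp only [PS, Finset.mul_sum]
    refine hasSum_sum fun p _ => ?_
    have := (pw_hasSum l (b * ‖x p.1 - x p.2‖)).mul_left (K s (b * ‖x p.1 - x p.2‖))
    refine (this.congr_fun ?_)
    intro M
    ring
  have hI : HasSum (fun M : ℕ => pw l M * ∫ r in (0 : ℝ)..ρ, K s r * (1 - r / 4) ^ M * (r / 2))
      (∫ r in (0 : ℝ)..ρ, K s r * Real.exp (-l * r) * (r / 2)) := by
    have key := intervalIntegral.hasSum_integral_of_dominated_convergence (μ := volume)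
      (a := 0) (b := ρ) (F := fun (M : ℕ) r => pw l M * (K s r * (1 - r / 4) ^ M * (r / 2)))
      (f := fun r => K s r * Real.exp (-l * r) * (r / 2))
      (fun M r => pw l M * |K s r * (r / 2)|) ?_ ?_ ?_ ?_ ?_
    · refine key.congr_fun ?_
      intro M
      rw [intervalIntegral.integral_const_mul]
    · intro M
      refine Measurable.aestronglyMeasurable ?_
      unfold K
      fun_prop
    · intro M
      refine Eventually.of_forall fun r hr => ?_
      rw [uIoc_of_le hρ0] at hr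
      have h1 : |(1 - r / 4) ^ M| ≤ 1 := by
        rw [abs_pow]
        refine pow_le_one₀ (abs_nonneg _) ?_
        rw [abs_le]
        constructor <;> linarith [hr.1, hr.2]
      rw [Real.norm_eq_abs, abs_mul, abs_of_nonneg (pw_nonneg hl M)]
      refine mul_le_mul_of_nonneg_left ?_ (pw_nonneg hl M)
      have : K s r * (1 - r / 4) ^ M * (r / 2) = (K s r * (r / 2)) * (1 - r / 4) ^ M := by ring
      rw [this, abs_mul]
      exact mul_le_of_le_one_right (abs_nonneg _) h1
    · refine Eventually.of_forall fun r _ => ?_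
      exact (pw_hasSum_one l).summable.mul_right _
    · have : (fun r => ∑' M : ℕ, pw l M * |K s r * (r / 2)|) = fun r => |K s r * (r / 2)| := by
        funext r
        rw [tsum_mul_right, (pw_hasSum_one l).tsum_eq, one_mul]
      rw [this]
      exact (K_mul_integrable h2 hρ0).abs
    · refine Eventually.of_forall fun r _ => ?_
      have := (pw_hasSum l r).mul_left (K s r * (r / 2))
      have e : K s r * Real.exp (-l * r) * (r / 2) = K s r * (r / 2) * Real.exp (-l * r) := by ring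
      simp only [e]
      refine this.congr_fun ?_
      intro M
      ring
  have hR : HasSum (fun M : ℕ => pw l M *
      (A * PS x (fun r => K s (b * r) * (1 - b * r / 4) ^ M) -
      B * ∫ r in (0 : ℝ)..ρ, K s r * (1 - r / 4) ^ M * (r / 2)))
      (A * PS x (fun r => K s (b * r) * Real.exp (-l * (b * r))) -
      B * ∫ r in (0 : ℝ)..ρ, K s r * Real.exp (-l * r) * (r / 2)) := by
    refine ((hPS.mul_left A).sub (hI.mul_left B)).congr_fun ?_
    intro M
    ring
  exact hasSum_le (fun M => mul_le_mul_of_nonneg_left (h M) (pw_nonneg hl M)) hβ hR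

/-- average over `u` with the density `1 / (J u)` -/
theorem mix2 {s : ℝ} (h2 : s < 2) {N₀ : ℕ} (x : Fin N₀ → E3) {b ρ A B β J c₀ c₁ : ℝ}
    (hρ0 : 0 ≤ ρ) (hJ : 0 < J) (hc1 : 0 ≤ c₁)
    (h : ∀ u : ℝ, 0 < u → β ≤ A * PS x (fun r => K s (b * r) * Real.exp (-u * (c₀ * r))) -
      B * ∫ r in (0 : ℝ)..ρ, K s r * Real.exp (-u * (c₁ * r)) * (r / 2)) :
    β ≤ A * PS x (fun r => K s (b * r) * HJ J (c₀ * r)) -
      B * ∫ r in (0 : ℝ)..ρ, K s r * HJ J (c₁ * r) * (r / 2) := by
  set a : ℝ := Real.exp (-2 * J) with ha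
  set a' : ℝ := Real.exp (-J) with ha'
  have ha0 : 0 < a := Real.exp_pos _
  have haa : a ≤ a' := Real.exp_le_exp.2 (by linarith)
  have ha'0 : 0 < a' := Real.exp_pos _
  have hinv : IntervalIntegrable (fun u : ℝ => u⁻¹) volume a a' := by
    refine ContinuousOn.intervalIntegrable ?_
    refine continuousOn_id.inv₀ fun u hu => ?_
    rw [uIcc_of_le haa] at hu
    exact (lt_of_lt_of_le ha0 hu.1).ne'
  have hmass : J⁻¹ * ∫ u in a..a', u⁻¹ = 1 := by
    rw [integral_inv_of_pos ha0 ha'0, Real.log_div ha'0.ne' ha0.ne', ha, ha', Real.log_exp,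
      Real.log_exp]
    field_simp
    ring
  -- the integrand over pairs
  have hexp : ∀ c : ℝ, IntervalIntegrable (fun u : ℝ => Real.exp (-u * c) / u) volume a a' := by
    intro c
    refine ContinuousOn.intervalIntegrable ?_
    refine ContinuousOn.div (by fun_prop) continuousOn_id fun u hu => ?_
    rw [uIcc_of_le haa] at hu
    exact (lt_of_lt_of_le ha0 hu.1).ne'
  have hPS1 : IntervalIntegrable (fun u : ℝ =>
      PS x (fun r => K s (b * r) * Real.exp (-u * (c₀ * r))) / u) volume a a' := by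
    have : (fun u : ℝ => PS x (fun r => K s (b * r) * Real.exp (-u * (c₀ * r))) / u) =
        fun u => ∑ p ∈ (Finset.univ : Finset (Fin N₀)).offDiag,
          K s (b * ‖x p.1 - x p.2‖) * (Real.exp (-u * (c₀ * ‖x p.1 - x p.2‖)) / u) := by
      funext u
      simp only [PS, Finset.sum_div, mul_div_assoc]
    rw [this]
    have h6 := IntervalIntegrable.sum (μ := volume) (a := a) (b := a')
      (Finset.univ : Finset (Fin N₀)).offDiag
      (f := fun p (u : ℝ) => K s (b * ‖x p.1 - x p.2‖) *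
        (Real.exp (-u * (c₀ * ‖x p.1 - x p.2‖)) / u)) fun p _ => (hexp _).const_mul _
    have e6 : (∑ p ∈ (Finset.univ : Finset (Fin N₀)).offDiag, fun (u : ℝ) =>
        K s (b * ‖x p.1 - x p.2‖) * (Real.exp (-u * (c₀ * ‖x p.1 - x p.2‖)) / u)) =
        fun u => ∑ p ∈ (Finset.univ : Finset (Fin N₀)).offDiag,
          K s (b * ‖x p.1 - x p.2‖) * (Real.exp (-u * (c₀ * ‖x p.1 - x p.2‖)) / u) := by
      funext u
      rw [Finset.sum_apply]
    rw [← e6]
    exact h6
  have hPS2 : J⁻¹ * ∫ u in a..a', PS x (fun r => K s (b * r) * Real.exp (-u * (c₀ * r))) / u =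
      PS x (fun r => K s (b * r) * HJ J (c₀ * r)) := by
    have : (fun u : ℝ => PS x (fun r => K s (b * r) * Real.exp (-u * (c₀ * r))) / u) =
        fun u => ∑ p ∈ (Finset.univ : Finset (Fin N₀)).offDiag,
          K s (b * ‖x p.1 - x p.2‖) * (Real.exp (-u * (c₀ * ‖x p.1 - x p.2‖)) / u) := by
      funext u
      simp only [PS, Finset.sum_div, mul_div_assoc]
    rw [this, intervalIntegral.integral_finsetSum fun p _ => (hexp _).const_mul _]
    simp only [PS, HJ, Finset.mul_sum, intervalIntegral.integral_const_mul]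
    refine Finset.sum_congr rfl fun p _ => ?_
    ring
  -- the double integral
  have hF : Integrable (Function.uncurry fun (u r : ℝ) =>
      K s r * Real.exp (-u * (c₁ * r)) * (r / 2) / u)
      ((volume.restrict (Ioc a a')).prod (volume.restrict (Ioc 0 ρ))) := by
    have h1 : Integrable (fun u : ℝ => u⁻¹) (volume.restrict (Ioc a a')) :=
      (intervalIntegrable_iff_integrableOn_Ioc_of_le haa).1 hinv
    have h3 : Integrable (fun r : ℝ => K s r * (r / 2)) (volume.restrict (Ioc 0 ρ)) :=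
      (intervalIntegrable_iff_integrableOn_Ioc_of_le hρ0).1 (K_mul_integrable h2 hρ0)
    have h4 := (h1.mul_prod h3).norm
    refine h4.mono' ?_ ?_
    · refine Measurable.aestronglyMeasurable ?_
      unfold K Function.uncurry
      fun_prop
    · rw [Measure.prod_restrict]
      refine (ae_restrict_iff' (measurableSet_Ioc.prod measurableSet_Ioc)).2
        (Eventually.of_forall fun z hz => ?_)
      obtain ⟨u, r⟩ := z
      obtain ⟨hu, hr⟩ := hz
      simp only [Function.uncurry]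
      have hu0 : 0 < u := lt_trans ha0 hu.1
      have hr0 : 0 < r := hr.1
      have e1 : Real.exp (-u * (c₁ * r)) ≤ 1 := by
        rw [Real.exp_le_one_iff]
        have : 0 ≤ u * (c₁ * r) := by positivity
        linarith
      have e : K s r * Real.exp (-u * (c₁ * r)) * (r / 2) / u =
          (u⁻¹ * (K s r * (r / 2))) * Real.exp (-u * (c₁ * r)) := by
        field_simp
      rw [e, norm_mul]
      refine mul_le_of_le_one_right (norm_nonneg _) ?_
      rw [Real.norm_of_nonneg (Real.exp_pos _).le]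
      exact e1
  have hI1 : IntervalIntegrable (fun u : ℝ =>
      (∫ r in (0 : ℝ)..ρ, K s r * Real.exp (-u * (c₁ * r)) * (r / 2)) / u) volume a a' := by
    rw [intervalIntegrable_iff_integrableOn_Ioc_of_le haa]
    have := hF.integral_prod_left
    refine this.congr (Eventually.of_forall fun u => ?_)
    simp only [Function.uncurry]
    rw [intervalIntegral.integral_of_le hρ0, integral_div]
  have hI2 : J⁻¹ * ∫ u in a..a',
      (∫ r in (0 : ℝ)..ρ, K s r * Real.exp (-u * (c₁ * r)) * (r / 2)) / u =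
      ∫ r in (0 : ℝ)..ρ, K s r * HJ J (c₁ * r) * (r / 2) := by
    have e1 : ∫ u in a..a', (∫ r in (0 : ℝ)..ρ, K s r * Real.exp (-u * (c₁ * r)) * (r / 2)) / u =
        ∫ u in Ioc a a', ∫ r in Ioc 0 ρ, K s r * Real.exp (-u * (c₁ * r)) * (r / 2) / u := by
      rw [intervalIntegral.integral_of_le haa]
      refine integral_congr_ae (Eventually.of_forall fun u => ?_)
      simp only
      rw [intervalIntegral.integral_of_le hρ0, integral_div]
    rw [e1, integral_integral_swap hF, intervalIntegral.integral_of_le hρ0, ← integral_const_mul]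
    refine integral_congr_ae (Eventually.of_forall fun r => ?_)
    simp only [HJ]
    rw [intervalIntegral.integral_of_le haa]
    have e2 : ∀ u : ℝ, K s r * Real.exp (-u * (c₁ * r)) * (r / 2) / u =
        (K s r * (r / 2)) * (Real.exp (-u * (c₁ * r)) / u) := fun u => by ring
    simp only [e2]
    rw [integral_const_mul]
    ring
  -- conclusion
  have hmono : ∫ u in a..a', β * u⁻¹ ≤ ∫ u in a..a',
      (A * (PS x (fun r => K s (b * r) * Real.exp (-u * (c₀ * r))) / u) -
      B * ((∫ r in (0 : ℝ)..ρ, K s r * Real.exp (-u * (c₁ * r)) * (r / 2)) / u)) := by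
    refine intervalIntegral.integral_mono_on haa (hinv.const_mul _)
      ((hPS1.const_mul _).sub (hI1.const_mul _)) fun u hu => ?_
    have hu0 : 0 < u := lt_of_lt_of_le ha0 hu.1
    have := mul_le_mul_of_nonneg_right (h u hu0) (inv_nonneg.2 hu0.le)
    refine this.trans (le_of_eq ?_)
    ring
  rw [intervalIntegral.integral_const_mul, intervalIntegral.integral_sub (hPS1.const_mul _)
    (hI1.const_mul _), intervalIntegral.integral_const_mul,
    intervalIntegral.integral_const_mul] at hmono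
  have h5 := mul_le_mul_of_nonneg_left hmono (inv_nonneg.2 hJ.le)
  rw [← hPS2, ← hI2]
  calc β = β * (J⁻¹ * ∫ u in a..a', u⁻¹) := by rw [hmass, mul_one]
    _ = J⁻¹ * (β * ∫ u in a..a', u⁻¹) := by ring
    _ ≤ _ := h5
    _ = _ := by ring

theorem upper_J {s : ℝ} (h0 : 0 < s) (h2 : s < 2) {η κ : ℝ} (hη : 0 < η) (hη1 : η < 1)
    (hκ : 0 < κ) (hκ1 : κ < 1) : ∃ ε₀ : ℝ, 0 < ε₀ ∧ ∀ (N₀ N₁ : ℕ), 1 ≤ N₀ → N₀ ≤ N₁ →
    ∀ ρ : ℝ, 0 < ρ → ρ * Real.sqrt (N₁ / N₀) ≤ ε₀ → ∀ x : Fin N₀ → E3, Conf x →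
    ∀ (J : ℝ) (β : ℝ), 0 < J →
    (∀ N' : ℕ, β ≤ minE s N' - 2 * N₁ * Cc s * N' + Cc s * (N₁ : ℝ) ^ 2) →
    β ≤ (N₁ : ℝ) / N₀ * PS x (fun r => K s ((1 - η) * Real.sqrt (N₀ / N₁) * r) *
        HJ J (Real.sqrt N₀ * r)) -
      (N₁ : ℝ) ^ 2 * ((1 - κ) *
        ∫ r in (0 : ℝ)..ρ, K s r * HJ J (Real.sqrt N₁ * r / (1 - η)) * (r / 2)) := by
  obtain ⟨ε₀, hε, H⟩ := upper_M h0 h2 hη hη1 hκ
  refine ⟨min ε₀ 1, lt_min hε one_pos, ?_⟩
  intro N₀ N₁ hN₀ hN ρ hρ hρε x hx J β hJ hβ
  have hN₀' : (0 : ℝ) < N₀ := by exact_mod_cast hN₀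
  have hN₁' : (0 : ℝ) < N₁ := lt_of_lt_of_le hN₀' (by exact_mod_cast hN)
  have hη' : 0 < 1 - η := by linarith
  have hρ1 : ρ ≤ 1 := by
    have h1 : (1 : ℝ) ≤ Real.sqrt (N₁ / N₀) := by
      rw [Real.one_le_sqrt, one_le_div hN₀']
      exact_mod_cast hN
    calc ρ ≤ ρ * Real.sqrt (N₁ / N₀) := le_mul_of_one_le_right hρ.le h1
      _ ≤ 1 := hρε.trans (min_le_right _ _)
  have hM := H N₀ N₁ hN₀ hN ρ hρ (hρε.trans (min_le_left _ _)) x hx
  have step1 : ∀ l : ℝ, 0 ≤ l → β ≤ (N₁ : ℝ) / N₀ *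
      PS x (fun r => K s ((1 - η) * Real.sqrt (N₀ / N₁) * r) *
        Real.exp (-l * ((1 - η) * Real.sqrt (N₀ / N₁) * r))) -
      ((N₁ : ℝ) ^ 2 * (1 - κ)) *
        ∫ r in (0 : ℝ)..ρ, K s r * Real.exp (-l * r) * (r / 2) := by
    intro l hl
    refine mix1 h2 x hρ.le hρ1 hl fun M => ?_
    have := hM M β hβ
    rwa [← mul_assoc ((N₁ : ℝ) ^ 2)] at this
  have step2 := mix2 (s := s) h2 x (b := (1 - η) * Real.sqrt (N₀ / N₁)) (ρ := ρ)
    (A := (N₁ : ℝ) / N₀) (B := (N₁ : ℝ) ^ 2 * (1 - κ)) (β := β) (J := J)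
    (c₀ := Real.sqrt N₀) (c₁ := Real.sqrt N₁ / (1 - η)) hρ.le hJ (by positivity) ?_
  · rw [mul_assoc ((N₁ : ℝ) ^ 2)] at step2
    have e : ∀ r : ℝ, Real.sqrt N₁ / (1 - η) * r = Real.sqrt N₁ * r / (1 - η) := fun r => by ring
    simp only [e] at step2
    exact step2
  · intro u hu
    have := step1 (Real.sqrt N₁ * u / (1 - η)) (by positivity)
    have hs : Real.sqrt N₁ * Real.sqrt (N₀ / N₁) = Real.sqrt N₀ := by
      rw [← Real.sqrt_mul hN₁'.le]
      congr 1
      field_simp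
    have e1 : ∀ r : ℝ, -(Real.sqrt N₁ * u / (1 - η)) * ((1 - η) * Real.sqrt (N₀ / N₁) * r) =
        -u * (Real.sqrt N₀ * r) := by
      intro r
      rw [← hs]
      field_simp
    have e2 : ∀ r : ℝ, -(Real.sqrt N₁ * u / (1 - η)) * r = -u * (Real.sqrt N₁ / (1 - η) * r) := by
      intro r
      ring
    simp only [e1, e2] at this
    exact this

end Pool.Agent.Helper81.RZ
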